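import Mathlib

/-! Invariant sets of a random permutation: fractional moment of their number. -/

open Finset Equiv

namespace Pool.Agent.V11328.L3

open Classical in
/-- The invariant sets of a permutation. -/
noncomputable def inv {α : Type*} [Fintype α] (s : Perm α) : Finset (Finset α) :=
  univ.filter fun S => ∀ x, x ∈ S ↔ s x ∈ S

lemma mem_inv {α : Type*} [Fintype α] {s : Perm α} {S : Finset α} :
    S ∈ inv s ↔ ∀ x, x ∈ S ↔ s x ∈ S := by
  simp [inv]

/-- Deleting the first element. -/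
def dl {n : ℕ} (S : Finset (Fin (n + 1))) : Finset (Fin n) := univ.filter fun x => x.succ ∈ S

lemma mem_dl {n : ℕ} {S : Finset (Fin (n + 1))} {x : Fin n} : x ∈ dl S ↔ x.succ ∈ S := by
  simp [dl]

lemma dec_zero {n : ℕ} (p : Fin (n + 1)) (e : Perm (Fin n)) :
    Perm.decomposeFin.symm (p, e) 0 = p := Perm.decomposeFin_symm_apply_zero p e

lemma dec_succ {n : ℕ} (p : Fin (n + 1)) (e : Perm (Fin n)) (x : Fin n) :
    Perm.decomposeFin.symm (p, e) x.succ = swap 0 p (e x).succ :=
  Perm.decomposeFin_symm_apply_succ e p x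

lemma dl_mem {n : ℕ} (p : Fin (n + 1)) (e : Perm (Fin n)) {S : Finset (Fin (n + 1))}
    (hS : S ∈ inv (Perm.decomposeFin.symm (p, e))) : dl S ∈ inv e := by
  rw [mem_inv] at hS ⊢
  intro x
  rw [mem_dl, mem_dl, hS x.succ, dec_succ]
  by_cases h : (e x).succ = p
  · rw [h, swap_apply_right]
    have := hS 0
    rw [dec_zero] at this
    exact this
  · rw [swap_apply_of_ne_of_ne (Fin.succ_ne_zero _) h]

lemma card_inv_zero {n : ℕ} (e : Perm (Fin n)) :
    #(inv (Perm.decomposeFin.symm ((0 : Fin (n + 1)), e))) ≤ 2 * #(inv e) := by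
  classical
  have h : #(inv (Perm.decomposeFin.symm ((0 : Fin (n + 1)), e))) ≤
      #((inv e) ×ˢ (univ : Finset Bool)) := by
    refine Finset.card_le_card_of_injOn (fun S => (dl S, decide (0 ∈ S))) ?_ ?_
    · intro S hS
      simp only [coe_product, Set.mem_prod, mem_coe, coe_univ, Set.mem_univ, and_true]
      exact dl_mem _ _ hS
    · intro S _ T _ hST
      simp only [Prod.mk.injEq, decide_eq_decide] at hST
      ext x
      refine Fin.cases hST.2 (fun y => ?_) x
      rw [← mem_dl, hST.1, mem_dl]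
  rw [card_product] at h
  simpa [mul_comm] using h

lemma card_inv_ne {n : ℕ} {p : Fin (n + 1)} (hp : p ≠ 0) (e : Perm (Fin n)) :
    #(inv (Perm.decomposeFin.symm (p, e))) ≤ #(inv e) := by
  classical
  refine Finset.card_le_card_of_injOn dl (fun S hS => dl_mem _ _ hS) ?_
  intro S hS T hT hST
  obtain ⟨q, rfl⟩ := Fin.exists_succ_eq.2 hp
  rw [mem_coe, mem_inv] at hS hT
  have h1 := hS 0
  have h2 := hT 0
  rw [dec_zero] at h1 h2
  ext x
  refine Fin.cases ?_ (fun y => ?_) x
  · rw [h1, h2, ← mem_dl, hST, mem_dl]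
  · rw [← mem_dl, hST, mem_dl]

/-- The fractional moment. -/
noncomputable def mm (n : ℕ) : ℝ := ∑ s : Perm (Fin n), Real.sqrt (#(inv s))

lemma mm_succ (n : ℕ) : mm (n + 1) ≤ (n + Real.sqrt 2) * mm n := by
  unfold mm
  rw [← Equiv.sum_comp (Perm.decomposeFin.symm) (fun s => Real.sqrt (#(inv s))),
    Fintype.sum_prod_type, Fin.sum_univ_succ, add_mul, Finset.mul_sum, Finset.mul_sum, add_comm]
  refine add_le_add ?_ ?_
  · rw [Finset.sum_comm]
    refine Finset.sum_le_sum fun e _ => ?_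
    have : ∀ i : Fin n, Real.sqrt (#(inv (Perm.decomposeFin.symm (i.succ, e)))) ≤
        Real.sqrt (#(inv e)) := fun i =>
      Real.sqrt_le_sqrt (by exact_mod_cast card_inv_ne (Fin.succ_ne_zero i) e)
    refine (Finset.sum_le_sum fun i _ => this i).trans ?_
    simp
  · refine Finset.sum_le_sum fun e _ => ?_
    rw [← Real.sqrt_mul (by norm_num)]
    exact Real.sqrt_le_sqrt (by exact_mod_cast card_inv_zero e)

lemma sqrt_two_lt : Real.sqrt 2 ≤ 1 + 9 / 20 := by
  rw [show (1 + 9 / 20 : ℝ) = Real.sqrt ((1 + 9 / 20) ^ 2) by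
    rw [Real.sqrt_sq (by norm_num)]]
  exact Real.sqrt_le_sqrt (by norm_num)

lemma mm_le (n : ℕ) : mm (n + 1) ≤ 3 * (n + 1).factorial * ((n : ℝ) + 1) ^ (9 / 20 : ℝ) := by
  induction n with
  | zero =>
    unfold mm
    have : ∀ s : Perm (Fin 1), Real.sqrt (#(inv s)) ≤ 3 := by
      intro s
      have h : #(inv s) ≤ 2 := by
        refine (card_le_univ _).trans ?_
        simp
      calc Real.sqrt (#(inv s)) ≤ Real.sqrt 9 := Real.sqrt_le_sqrt (by
            have : (#(inv s) : ℝ) ≤ 2 := by exact_mod_cast h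
            linarith)
        _ = 3 := by
            rw [show (9 : ℝ) = 3 ^ 2 by norm_num, Real.sqrt_sq (by norm_num)]
    refine (Finset.sum_le_sum fun s _ => this s).trans ?_
    simp
  | succ n ih =>
    refine (mm_succ (n + 1)).trans ?_
    have h0 : (0 : ℝ) ≤ (n : ℝ) + 1 := by positivity
    have h1 : ((n + 1 : ℕ) : ℝ) + Real.sqrt 2 ≤
        ((n + 1 : ℕ) + 1 : ℝ) * (((n : ℝ) + 2) / ((n : ℝ) + 1)) ^ (9 / 20 : ℝ) := by
      have h2 : 1 + (9 / 20 : ℝ) / ((n : ℝ) + 2) ≤ (((n : ℝ) + 2) / ((n : ℝ) + 1)) ^ (9 / 20 : ℝ) := by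
        have h3 : Real.log (((n : ℝ) + 2) / ((n : ℝ) + 1)) ≥ 1 / ((n : ℝ) + 2) := by
          have := Real.one_sub_inv_le_log_of_pos (x := ((n : ℝ) + 2) / ((n : ℝ) + 1)) (by positivity)
          have h4 : 1 - (((n : ℝ) + 2) / ((n : ℝ) + 1))⁻¹ = 1 / ((n : ℝ) + 2) := by
            field_simp
            ring
          linarith
        rw [Real.rpow_def_of_pos (by positivity)]
        have h5 := Real.add_one_le_exp
          (Real.log (((n : ℝ) + 2) / ((n : ℝ) + 1)) * (9 / 20))
        have h6 : (9 / 20 : ℝ) / ((n : ℝ) + 2) = 1 / ((n : ℝ) + 2) * (9 / 20) := by ring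
        rw [h6]
        nlinarith
      have h7 : ((n + 1 : ℕ) : ℝ) + Real.sqrt 2 ≤
          ((n + 1 : ℕ) + 1 : ℝ) * (1 + (9 / 20 : ℝ) / ((n : ℝ) + 2)) := by
        push_cast
        have : ((n : ℝ) + 1 + 1) * (1 + 9 / 20 / ((n : ℝ) + 2)) = (n : ℝ) + 2 + 9 / 20 := by
          field_simp
          ring
        rw [this]
        have := sqrt_two_lt
        linarith
      refine h7.trans ?_
      gcongr
    calc ((n + 1 : ℕ) + Real.sqrt 2) * mm (n + 1)
        ≤ (((n + 1 : ℕ) + 1 : ℝ) * (((n : ℝ) + 2) / ((n : ℝ) + 1)) ^ (9 / 20 : ℝ)) *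
          (3 * (n + 1).factorial * ((n : ℝ) + 1) ^ (9 / 20 : ℝ)) := by
          refine mul_le_mul h1 ih ?_ (by positivity)
          unfold mm
          positivity
      _ = 3 * (n + 1 + 1).factorial * (((n + 1 : ℕ) : ℝ) + 1) ^ (9 / 20 : ℝ) := by
          rw [Real.div_rpow (by positivity) (by positivity), Nat.factorial_succ (n + 1)]
          have : ((n : ℝ) + 1) ^ (9 / 20 : ℝ) ≠ 0 := by positivity
          push_cast
          rw [show (n : ℝ) + 1 + 1 = n + 2 by ring]
          field_simp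

end Pool.Agent.V11328.L3
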