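import Pool.Agent.V11328.L3.Inv

/-! First return permutations, and the probability of a full cycle. -/

open Finset Equiv

namespace Pool.Agent.V11328.L3

/-- Every point is reached from every point. -/
def Trans {α : Type*} (h : Perm α) : Prop := ∀ x y : α, ∃ k : ℕ, (h ^ k) x = y

section ret
variable {α V : Type*} [Fintype α] [Fintype V] [DecidableEq V] (ι : α → V) (f : Perm V)

lemma ret_ex (a : α) : ∃ j : ℕ, (f ^ (j + 1)) (ι a) ∈ Set.range ι := by
  refine ⟨orderOf f - 1, ?_⟩
  rw [Nat.sub_add_cancel (orderOf_pos f), pow_orderOf_eq_one]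
  exact ⟨a, rfl⟩

open Classical in
/-- Return time minus one. -/
noncomputable def tm (a : α) : ℕ := Nat.find (ret_ex ι f a)

open Classical in
/-- First return map. -/
noncomputable def ret (a : α) : α := (Nat.find_spec (ret_ex ι f a)).choose

lemma ret_spec (a : α) : ι (ret ι f a) = (f ^ (tm ι f a + 1)) (ι a) := by
  classical
  unfold ret tm
  exact (Nat.find_spec (ret_ex ι f a)).choose_spec

lemma tm_min (a : α) {j : ℕ} (hj : j < tm ι f a) : (f ^ (j + 1)) (ι a) ∉ Set.range ι := by
  classical
  exact Nat.find_min (ret_ex ι f a) hj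

variable {ι}

lemma ret_inj (hι : Function.Injective ι) : Function.Injective (ret ι f) := by
  have key : ∀ a b : α, tm ι f a ≤ tm ι f b → ret ι f a = ret ι f b → a = b := by
    intro a b hle hab
    have h1 := ret_spec ι f a
    have h2 := ret_spec ι f b
    rw [hab, h2] at h1
    obtain ⟨d, hd⟩ := Nat.exists_eq_add_of_le hle
    rw [hd, show tm ι f a + d + 1 = (tm ι f a + 1) + d by ring, pow_add, Perm.mul_apply] at h1
    have h3 := (f ^ (tm ι f a + 1)).injective h1
    rcases Nat.eq_zero_or_pos d with h0 | h0
    · subst h0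
      rw [pow_zero] at h3
      exact (hι h3).symm
    · exfalso
      obtain ⟨e, rfl⟩ := Nat.exists_eq_add_of_lt h0
      have := tm_min ι f b (j := e) (by omega)
      apply this
      rw [zero_add] at h3
      exact ⟨a, h3.symm⟩
  intro a b hab
  rcases le_total (tm ι f a) (tm ι f b) with h | h
  · exact key a b h hab
  · exact (key b a h hab.symm).symm

/-- First return permutation. -/
noncomputable def retP (hι : Function.Injective ι) : Perm α :=
  Equiv.ofBijective (ret ι f) (Finite.injective_iff_bijective.1 (ret_inj f hι))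

lemma trans_ret (hι : Function.Injective ι) {ρ : Perm α} {h : Perm V}
    (h1 : ∀ v : V, f v ∉ Set.range ι → h v = f v)
    (h2 : ∀ (v : V) (b : α), f v = ι b → h v = ι (ρ b))
    (ht : Trans h) : Trans (ρ * retP f hι) := by
  have hj : ∀ (a : α) (j : ℕ), j < tm ι f a → (h ^ (j + 1)) (ι a) = (f ^ (j + 1)) (ι a) := by
    intro a j
    induction j with
    | zero =>
      intro hj
      have := tm_min ι f a hj
      simp only [zero_add, pow_one] at this ⊢
      exact h1 _ this
    | succ j ih =>
      intro hj
      have := tm_min ι f a hj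
      rw [pow_succ' h, Perm.mul_apply, ih (by omega)]
      rw [pow_succ' f (j + 1), Perm.mul_apply] at this ⊢
      exact h1 _ this
  have hr : ∀ a : α, (h ^ (tm ι f a + 1)) (ι a) = ι (ρ (ret ι f a)) := by
    intro a
    rcases Nat.eq_zero_or_pos (tm ι f a) with h0 | h0
    · have := ret_spec ι f a
      rw [h0, zero_add, pow_one] at this ⊢
      exact h2 _ _ this.symm
    · obtain ⟨j, hj'⟩ := Nat.exists_eq_add_of_lt h0
      rw [zero_add] at hj'
      have := ret_spec ι f a
      rw [pow_succ' f, Perm.mul_apply] at this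
      rw [pow_succ' h, Perm.mul_apply]
      refine h2 _ _ ?_
      rw [this, hj', hj a j (by omega)]
  have key : ∀ (k : ℕ) (a b : α), (h ^ k) (ι a) = ι b → ∃ m : ℕ, ((ρ * retP f hι) ^ m) a = b := by
    intro k
    induction k using Nat.strong_induction_on with
    | _ k ih =>
      intro a b hk
      rcases Nat.eq_zero_or_pos k with h0 | h0
      · subst h0
        exact ⟨0, hι hk⟩
      have hle : tm ι f a + 1 ≤ k := by
        by_contra hc
        push Not at hc
        obtain ⟨j, hj'⟩ := Nat.exists_eq_add_of_lt h0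
        rw [zero_add] at hj'
        have h5 := tm_min ι f a (j := j) (by omega)
        rw [← hj a j (by omega), ← hj', hk] at h5
        exact h5 ⟨b, rfl⟩
      obtain ⟨d, rfl⟩ := Nat.exists_eq_add_of_le hle
      rw [show tm ι f a + 1 + d = d + (tm ι f a + 1) by ring, pow_add, Perm.mul_apply, hr] at hk
      obtain ⟨m, hm⟩ := ih d (by omega) _ _ hk
      refine ⟨m + 1, ?_⟩
      rw [pow_succ, Perm.mul_apply]
      exact hm
  intro a b
  obtain ⟨k, hk⟩ := ht (ι a) (ι b)
  exact key k a b hk

end ret

open Classical in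
lemma card_trans {n : ℕ} (hn : 2 ≤ n) :
    #(univ.filter fun h : Perm (Fin n) => Trans h) ≤ (n - 1).factorial := by
  have h1 := Perm.card_of_cycleType_singleton (α := Fin n) hn (by simp)
  rw [Fintype.card_fin, Nat.choose_self, mul_one] at h1
  rw [← h1]
  refine Finset.card_le_card fun h hh => ?_
  rw [mem_filter] at hh ⊢
  refine ⟨mem_univ _, ?_⟩
  have ht := hh.2
  have hm : ∀ x, h x ≠ x := by
    intro x hx
    have h2 : ∀ k : ℕ, (h ^ k) x = x := by
      intro k
      induction k with
      | zero => rfl
      | succ k ih => rw [pow_succ, Perm.mul_apply, hx, ih]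
    have h3 : ∀ y, y = x := by
      intro y
      obtain ⟨k, hk⟩ := ht x y
      rw [h2] at hk
      exact hk.symm
    have h4 := h3 ⟨0, by omega⟩
    have h5 := h3 ⟨1, by omega⟩
    rw [← h4] at h5
    simp [Fin.ext_iff] at h5
  have hc : h.IsCycle := by
    refine ⟨⟨0, by omega⟩, hm _, fun y _ => ?_⟩
    obtain ⟨k, hk⟩ := ht ⟨0, by omega⟩ y
    exact ⟨k, by simpa using hk⟩
  rw [hc.cycleType]
  have hs : h.support = univ := by
    ext x
    simp [hm x]
  rw [hs, card_univ, Fintype.card_fin]

end Pool.Agent.V11328.L3
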